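import Pool.Agent.J4H72.LP.Grh

/-!
# The largest least prime `p(a)` for almost all moduli: the bound of the Riemann hypothesis up to `(log log a)^4`

For every `U` there is a constant `C` such that for all `N ≥ 16` and all real `K ≥ 1`

  `#{N < a ≤ 2 N : p(a) > K a² (log a)² (log log a)⁴} ≤ C N (1 / √K + 1 / (log N)^U)`.

So `p(a) ≤ ψ(a) a² (log a)² (log log a)⁴` for almost all `a`, for every function `ψ` tending to infinity; the
generalized Riemann hypothesis gives `p(a) = O(φ(a)² (log a)²)`.

Input: the theorem of Bombieri–Vinogradov type with the error `D √x (log log x)²` (`MP_00e23e_nt/LogLogLoss`).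
-/

set_option autoImplicit false

namespace Pool.Agent.Results.MP_5b0a7e_nt.LargestLeastPrime

open Finset
open Pool.Agent.J4H72.LP (lateS lateS_anti grh)

/-- `p(a, b)`: the least prime in the progression `{a n + b : n ≥ 0}` -/
noncomputable def p (a b : ℕ) : ℕ := sInf {q : ℕ | q.Prime ∧ ∃ n : ℕ, q = a * n + b}

/-- `p(a)`: the maximum of `p(a, b)` over the integers `1 ≤ b < a` coprime to `a` -/
noncomputable def pmax (a : ℕ) : ℕ := ((Ico 1 a).filter (fun b => Nat.Coprime a b)).sup (p a)

/-- a large value of `p(a)` gives a class without small primes -/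
lemma late_of (a : ℕ) (x : ℝ) (hx : 0 ≤ x) (h : x < (pmax a : ℝ)) : (lateS a x).Nonempty := by
  classical
  have hne : ((Ico 1 a).filter (fun b => Nat.Coprime a b)).Nonempty := by
    by_contra hcon
    rw [not_nonempty_iff_eq_empty] at hcon
    unfold pmax at h
    rw [hcon, sup_empty] at h
    have h1 : ((⊥ : ℕ) : ℝ) = 0 := by norm_num
    rw [h1] at h
    linarith
  obtain ⟨b, hb, he⟩ := exists_mem_eq_sup _ hne (p a)
  have he' : pmax a = p a b := he
  rw [he'] at h
  rw [mem_filter, mem_Ico] at hb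
  refine ⟨b, ?_⟩
  unfold lateS
  rw [mem_filter, mem_range]
  refine ⟨hb.1.2, (Nat.coprime_comm.1 hb.2), fun q hq hqx hmod => ?_⟩
  have h1 : p a b ≤ q := by
    apply Nat.sInf_le
    refine ⟨hq, q / a, ?_⟩
    rw [← hmod]
    exact (Nat.div_add_mod q a).symm
  have h2 : ((p a b : ℕ) : ℝ) ≤ q := by exact_mod_cast h1
  linarith

open Classical in
/-- **The largest least prime modulo almost all moduli.** -/
theorem result (U : ℕ) : ∃ C : ℝ, ∀ N : ℕ, 16 ≤ N → ∀ K : ℝ, 1 ≤ K →
    (((Ioc N (2 * N)).filter (fun a : ℕ =>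
      K * (a : ℝ) ^ 2 * Real.log a ^ 2 * Real.log (Real.log a) ^ 4 < (pmax a : ℝ))).card : ℝ) ≤
      C * (N * (1 / Real.sqrt K + 1 / Real.log N ^ U)) := by
  obtain ⟨C, -, h⟩ := grh U
  refine ⟨C, fun N hN K hK => h N hN K hK _ (filter_subset _ _) (fun a ha => ?_)⟩
  rw [mem_filter, mem_Ioc] at ha
  have hNr : (16 : ℝ) ≤ N := by exact_mod_cast hN
  have haN : (N : ℝ) ≤ a := by exact_mod_cast ha.1.1.le
  have hlogN : 1 ≤ Real.log N := J4H72.LP.log_one_le (by linarith)
  have hlog : Real.log N ≤ Real.log a := Real.log_le_log (by linarith) haN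
  have hll0 : 0 ≤ Real.log (Real.log N) := Real.log_nonneg hlogN
  have hll : Real.log (Real.log N) ≤ Real.log (Real.log a) := Real.log_le_log (by linarith) hlog
  have h1 := late_of a _ (by
    have : 0 ≤ Real.log (Real.log a) := hll0.trans hll
    positivity) ha.2
  refine h1.mono (lateS_anti a ?_)
  gcongr

end Pool.Agent.Results.MP_5b0a7e_nt.LargestLeastPrime
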