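import Pool.Agent.J4H72.LP.Mean

/-!
# The distribution and the mean value of the least primes `p(a, b)`, for almost all moduli `a`

For every `U` there is a `C` such that for all the moduli `a ≤ N`, with at most `N / (log N)^U` exceptions, and for
ALL real `x > 0`, fewer than `φ(a)² (log a)^C / x` of the reduced residue classes `b` modulo `a` have `p(a, b) > x`, and
the mean value of `p(a, b)` over the `φ(a)` reduced classes `b` is at most `φ(a) (log a)^C`.

So `p(a, b) ≤ a^(1 + δ)` for all `b` with at most `a^(1 - δ) (log a)^C` exceptions, uniformly for `0 ≤ δ ≤ 1`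
(`δ = 1`: there is no exception at all if `p(a, b) ≤ φ(a)² (log a)^(C + 1)`), and on average over the classes the least
prime satisfies the bound which is asked for, up to a power of the logarithm.

Input: a theorem of Bombieri–Vinogradov type for all classes outside a set of at most `q² (log x)^B / x` exceptional
classes for each modulus `q` (`H343R2/EH`), used at all the scales `a ≤ x ≤ a³`.
-/

set_option autoImplicit false

namespace Pool.Agent.Results.MP_5b0a7e_nt.MeanLeastPrime

open Finset

/-- `p(a, b)`: the least prime in the progression `{a n + b : n ≥ 0}` -/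
noncomputable def p (a b : ℕ) : ℕ := sInf {q : ℕ | q.Prime ∧ ∃ n : ℕ, q = a * n + b}

/-- the reduced residues `1 ≤ b < a` modulo `a` -/
def red (a : ℕ) : Finset ℕ := (Ico 1 a).filter (fun b => Nat.Coprime a b)

/-- For all real `x > 0` at most `φ(a)² (log a)^C / x` of the reduced residues `b` have `p(a, b) > x`, and the sum of
`p(a, b)` over the reduced residues `b` is at most `φ(a)² (log a)^C`. -/
def Tame (C a : ℕ) : Prop :=
  (∀ x : ℝ, 0 < x → (((red a).filter (fun b => x < (p a b : ℝ))).card : ℝ) ≤
    (Nat.totient a : ℝ) ^ 2 * Real.log a ^ C / x) ∧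
  ∑ b ∈ red a, (p a b : ℝ) ≤ (Nat.totient a : ℝ) ^ 2 * Real.log a ^ C

lemma p_eq (a b : ℕ) (hb : b < a) : p a b = J4H72.LP.lp a b := by
  unfold p J4H72.LP.lp
  congr 1
  ext q
  simp only [Set.mem_ofPred_eq]
  constructor
  · rintro ⟨h1, n, h2⟩
    refine ⟨h1, ?_⟩
    rw [h2]
    show (a * n + b) % a = b % a
    rw [Nat.mul_add_mod]
  · rintro ⟨h1, h2⟩
    refine ⟨h1, q / a, ?_⟩
    have h3 : q % a = b % a := h2
    rw [Nat.mod_eq_of_lt hb] at h3
    rw [← h3]
    exact (Nat.div_add_mod q a).symm

lemma red_eq (a : ℕ) (ha : 2 ≤ a) : red a = J4H72.LP.red a := by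
  unfold red J4H72.LP.red
  ext b
  rw [mem_filter, mem_filter, mem_Ico, mem_range, Nat.coprime_comm]
  constructor
  · rintro ⟨h1, h2⟩
    exact ⟨h1.2, h2⟩
  · rintro ⟨h1, h2⟩
    refine ⟨⟨?_, h1⟩, h2⟩
    rcases Nat.eq_zero_or_pos b with h | h
    · subst h
      rw [Nat.coprime_zero_left] at h2
      omega
    · exact h

open Classical in
/-- **The least primes modulo almost all moduli: all tails, and the mean value.** -/
theorem result (U : ℕ) : ∃ C N₀ : ℕ, ∀ N : ℕ, N₀ ≤ N →
    (((Icc 1 N).filter (fun a : ℕ => ¬ Tame C a)).card : ℝ) ≤ N / Real.log N ^ U := by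
  obtain ⟨C, N₀, h⟩ := J4H72.LP.mean U
  refine ⟨C, max N₀ 3, fun N hN => ?_⟩
  obtain ⟨S, hS1, hS2, hS3⟩ := h N ((le_max_left _ _).trans hN)
  have hN3 : 3 ≤ N := (le_max_right _ _).trans hN
  have hlog : 0 < Real.log N := Real.log_pos (by exact_mod_cast (by omega : 1 < N))
  rw [le_div_iff₀ (by positivity)]
  refine le_trans ?_ hS2
  apply mul_le_mul_of_nonneg_right _ (by positivity)
  have hsub : (Icc 1 N).filter (fun a : ℕ => ¬ Tame C a) ⊆ S := by
    intro a ha
    rw [mem_filter] at ha
    by_contra haS
    apply ha.2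
    have ha1 := mem_Icc.1 ha.1
    rcases Nat.lt_or_ge a 2 with h2 | h2
    · have ha1' : a = 1 := by omega
      subst ha1'
      unfold Tame red
      constructor
      · intro x hx
        simp only [Ico_self, filter_empty, card_empty, Nat.cast_zero]
        positivity
      · simp only [Ico_self, filter_empty, sum_empty]
        positivity
    · obtain ⟨g1, g2⟩ := hS3 a ha.1 haS
      unfold Tame
      rw [red_eq a h2]
      have hp : ∀ b ∈ J4H72.LP.red a, p a b = J4H72.LP.lp a b := by
        intro b hb
        unfold J4H72.LP.red at hb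
        rw [mem_filter, mem_range] at hb
        exact p_eq a b hb.1
      constructor
      · intro x hx
        rw [le_div_iff₀ hx]
        refine le_trans (le_of_eq ?_) (g1 x hx)
        rw [← J4H72.LP.filter_red]
        congr 3
        apply filter_congr
        intro b hb
        rw [hp b hb]
      · refine le_trans (le_of_eq ?_) g2
        apply sum_congr rfl
        intro b hb
        rw [hp b hb]
  exact_mod_cast card_le_card hsub

end Pool.Agent.Results.MP_5b0a7e_nt.MeanLeastPrime
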