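import Pool.Agent.J4H72.LP.LpgAll

/-!
# The least primes modulo almost all moduli `a ≡ c (mod m)`, for EVERY `m ≤ X ^ (2 / 3 - ρ)`

For every `m ≤ X ^ (2 / 3 - ρ)`, without any exceptional `m`, and every class `c` modulo `m` with
`gcd(c, m) ≤ (log X)^T`, all the moduli `a ≡ c (mod m)` with `X / (log X)^K ≤ a ≤ X`, up to at most `X / (m (log X)^A)`
of them, have the following property: for ALL real `x = lam φ(a) log a` with `a ≤ x ≤ a (log a)^K` the least prime
`p(a, b)` is larger than `x` for at most `(1 + ε) φ(a) / (1 + lam)` of the `φ(a)` reduced classes `b`.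

For `lam = C₁ log a`: `p(a, b) ≤ C₁ φ(a) (log a)²` with fewer than `(1 + ε) φ(a) / (C₁ log a)` exceptional classes `b`.
The moduli `a` run over sequences with as few as `X ^ (1 / 3 + ρ)` members.

Input: the asymptotic formula for the variance of the primes modulo the moduli in a class (`R460/GQ`).
-/

set_option autoImplicit false

namespace Pool.Agent.Results.MP_5b0a7e_nt.ModuliInEveryClass

open Finset

/-- `p(a, b)`: the least prime in the progression `{a n + b : n ≥ 0}` -/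
noncomputable def p (a b : ℕ) : ℕ := sInf {q : ℕ | q.Prime ∧ ∃ n : ℕ, q = a * n + b}

/-- the reduced residues `1 ≤ b < a` modulo `a` -/
def red (a : ℕ) : Finset ℕ := (Ico 1 a).filter (fun b => Nat.Coprime a b)

/-- For all real `x = lam φ(a) log a` with `a ≤ x ≤ a (log a)^K` at most `(1 + ε) φ(a) / (1 + lam)` of the reduced
residues `b` modulo `a` have `p(a, b) > x`. -/
def Good (ε : ℝ) (K a : ℕ) : Prop :=
  ∀ x : ℝ, (a : ℝ) ≤ x → x ≤ a * Real.log a ^ K →
    (((red a).filter (fun b => x < (p a b : ℝ))).card : ℝ) ≤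
      (1 + ε) * Nat.totient a / (1 + x / (Nat.totient a * Real.log a))

lemma p_eq (a b : ℕ) (hb : b < a) : p a b = J4H72.LP.lp a b := by
  unfold p J4H72.LP.lp
  congr 1
  ext q
  simp only [Set.mem_ofPred_eq]
  constructor
  · rintro ⟨h1, n, h2⟩
    refine ⟨h1, ?_⟩
    rw [h2]
    show (a * n + b) % a = b % a
    rw [Nat.mul_add_mod]
  · rintro ⟨h1, h2⟩
    refine ⟨h1, q / a, ?_⟩
    have h3 : q % a = b % a := h2
    rw [Nat.mod_eq_of_lt hb] at h3
    rw [← h3]
    exact (Nat.div_add_mod q a).symm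

lemma red_eq (a : ℕ) (ha : 2 ≤ a) : red a = J4H72.LP.red a := by
  unfold red J4H72.LP.red
  ext b
  rw [mem_filter, mem_filter, mem_Ico, mem_range, Nat.coprime_comm]
  constructor
  · rintro ⟨h1, h2⟩
    exact ⟨h1.2, h2⟩
  · rintro ⟨h1, h2⟩
    refine ⟨⟨?_, h1⟩, h2⟩
    rcases Nat.eq_zero_or_pos b with h | h
    · subst h
      rw [Nat.coprime_zero_left] at h2
      omega
    · exact h

lemma good_of (ε : ℝ) (hε : 0 < ε) (K a : ℕ) (ha : 1 ≤ a) (h : Pool.Agent.R501.LP.LpG ε K a) : Good ε K a := by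
  classical
  intro x hx1 hx2
  have ha0 : (1 : ℝ) ≤ a := by exact_mod_cast ha
  have hφ : (0 : ℝ) < Nat.totient a := by exact_mod_cast Nat.totient_pos.2 ha
  have hL : 0 ≤ Real.log a := Real.log_nonneg ha0
  have hx0 : 0 < x := by linarith
  have hd : 0 < 1 + x / ((Nat.totient a : ℝ) * Real.log a) := by positivity
  rcases Nat.lt_or_ge a 2 with h2 | h2
  · have h1 : a = 1 := by omega
    subst h1
    unfold red
    rw [Ico_self, filter_empty, filter_empty, card_empty, Nat.cast_zero]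
    positivity
  · rw [le_div_iff₀ hd]
    refine le_trans (le_of_eq ?_) (h x hx1 hx2).1
    congr 2
    rw [red_eq a h2]
    have e1 : (J4H72.LP.red a).filter (fun b => x < (p a b : ℝ)) =
        (J4H72.LP.red a).filter (fun b => x < (J4H72.LP.lp a b : ℝ)) := by
      apply filter_congr
      intro b hb
      unfold J4H72.LP.red at hb
      rw [mem_filter, mem_range] at hb
      rw [p_eq a b hb.1]
    rw [e1, J4H72.LP.filter_red]
    unfold J4H72.LP.lateS
    rfl

open Classical in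
/-- **The least primes for the moduli in the classes of every modulus.** -/
theorem result (ε ρ : ℝ) (hε : 0 < ε) (hρ : 0 < ρ) (A K T : ℕ) :
    ∃ X₀ : ℕ, ∀ X : ℕ, X₀ ≤ X → ∀ m : ℕ, 1 ≤ m → (m : ℝ) ≤ (X : ℝ) ^ (2 / 3 - ρ) → ∀ c : ℕ,
      (Nat.gcd c m : ℝ) ≤ Real.log X ^ T →
        (((Icc 1 X).filter (fun a : ℕ => (X : ℝ) ≤ a * Real.log X ^ K ∧ a ≡ c [MOD m] ∧ ¬ Good ε K a)).card : ℝ) ≤
          X / (m * Real.log X ^ A) := by
  obtain ⟨ρ', hρ'⟩ : ∃ ρ', ρ' = min ρ (1 / 3) := ⟨_, rfl⟩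
  have hρ0 : 0 < ρ' := by rw [hρ']; exact lt_min hρ (by norm_num)
  obtain ⟨ε', hε'⟩ : ∃ ε', ε' = min ε 1 := ⟨_, rfl⟩
  have hε0 : 0 < ε' := by rw [hε']; exact lt_min hε one_pos
  have hε1 : ε' ≤ 1 := by rw [hε']; exact min_le_right _ _
  have hεε : ε' ≤ ε := by rw [hε']; exact min_le_left _ _
  obtain ⟨X₁, h1⟩ := J4H72.LP.lpg_off ε' hε0 hε1 K K
  obtain ⟨X₂, h2⟩ := Pool.Agent.R460.GQ.var_main Pool.Agent.R460.GQ.errQ_all ρ' (ε' / 4) hρ0
    (by rw [hρ']; exact min_le_right _ _) (by linarith) (by linarith) A (max K K) T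
  refine ⟨max (max X₁ X₂) 3, fun X hX m hm1 hm c hc => ?_⟩
  have hX3 : 3 ≤ X := (le_max_right _ _).trans hX
  have hXr : (3 : ℝ) ≤ X := by exact_mod_cast hX3
  have hm' : (m : ℝ) ≤ (X : ℝ) ^ (2 / 3 - ρ') := by
    refine hm.trans (Real.rpow_le_rpow_of_exponent_le (by linarith) ?_)
    have : ρ' ≤ ρ := by rw [hρ']; exact min_le_left _ _
    linarith
  refine le_trans ?_ (h2 X (((le_max_right _ _).trans (le_max_left _ _)).trans hX) m hm1 hm' c hc)
  have hsub : (Icc 1 X).filter (fun a : ℕ => (X : ℝ) ≤ a * Real.log X ^ K ∧ a ≡ c [MOD m] ∧ ¬ Good ε K a) ⊆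
      Pool.Agent.R460.GQ.badV (max K K) (ε' / 4) X m c := by
    intro a ha
    rw [mem_filter, mem_Icc] at ha
    obtain ⟨⟨ha1, haX⟩, g1, g2, g3⟩ := ha
    by_contra hbad
    apply g3
    have h3 := h1 X (((le_max_left _ _).trans (le_max_left _ _)).trans hX) m c a ha1 haX g2 g1 hbad
    have h4 := good_of ε' hε0 K a ha1 h3
    intro x hx1 hx2
    refine (h4 x hx1 hx2).trans ?_
    have ha0 : (1 : ℝ) ≤ a := by exact_mod_cast ha1
    have hL : 0 ≤ Real.log a := Real.log_nonneg ha0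
    have hx0 : 0 < x := by linarith
    gcongr
  exact_mod_cast card_le_card hsub

end Pool.Agent.Results.MP_5b0a7e_nt.ModuliInEveryClass
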