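import Pool.Agent.J4H72.LP.Moment

/-!
# The moments of the least primes `p(a, b)` modulo almost all moduli `a`: the order of magnitude, explicit constants

For `κ > 0` let `M_κ(a)` be the mean value of `(p(a, b) / (φ(a) log a)) ^ κ` over the `φ(a)` reduced residue classes
`b` modulo `a`. For all `δ, ε > 0` and every `U`, all the moduli `a ≤ N` with at most `N / (log N)^U` exceptions satisfy

  `1 / (1 + κ) - ε ≤ M_κ(a) ≤ (1 + ε) π κ / sin (π κ)`    for ALL `0 < κ ≤ 1 - δ`.

So all moments of order less than one have the order of magnitude `(φ(a) log a)^κ`. (The lower bound holds for all large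
moduli: the least primes are `φ(a)` distinct primes. If the `p(a, b) / (φ(a) log a)` had an exponential distribution, as
it is conjectured, then `M_κ(a)` would tend to `Γ(1 + κ)`.)

Inputs: the asymptotic formula for the variance of the primes in the classes modulo almost all moduli, for
`a ≤ x ≤ a (log a)^K`, which gives `#{b : p(a, b) > lam φ(a) log a} ≤ (1 + ε) φ(a) / (1 + lam)` there; and for larger `x`
a theorem of Bombieri–Vinogradov type with few exceptional classes, which gives
`#{b : p(a, b) > x} ≤ a² (log a)^C / x` with a `C` which does not depend on `K`.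
-/

set_option autoImplicit false

namespace Pool.Agent.Results.MP_5b0a7e_nt.MomentsLeastPrime

open Finset

/-- `p(a, b)`: the least prime in the progression `{a n + b : n ≥ 0}` -/
noncomputable def p (a b : ℕ) : ℕ := sInf {q : ℕ | q.Prime ∧ ∃ n : ℕ, q = a * n + b}

/-- the reduced residues `1 ≤ b < a` modulo `a` -/
def red (a : ℕ) : Finset ℕ := (Ico 1 a).filter (fun b => Nat.Coprime a b)

/-- the mean value of `(p(a, b) / (φ(a) log a)) ^ κ` over the reduced residues `b` modulo `a` -/
noncomputable def moment (κ : ℝ) (a : ℕ) : ℝ :=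
  (∑ b ∈ red a, ((p a b : ℝ) / (Nat.totient a * Real.log a)) ^ κ) / Nat.totient a

/-- `1 / (1 + κ) - ε ≤ moment κ a ≤ (1 + ε) π κ / sin (π κ)` for all `0 < κ ≤ 1 - δ` -/
def Good (δ ε : ℝ) (a : ℕ) : Prop :=
  ∀ κ : ℝ, 0 < κ → κ ≤ 1 - δ →
    1 / (1 + κ) - ε ≤ moment κ a ∧ moment κ a ≤ (1 + ε) * (Real.pi * κ / Real.sin (Real.pi * κ))

lemma p_eq (a b : ℕ) (hb : b < a) : p a b = J4H72.LP.lp a b := by
  unfold p J4H72.LP.lp
  congr 1
  ext q
  simp only [Set.mem_ofPred_eq]
  constructor
  · rintro ⟨h1, n, h2⟩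
    refine ⟨h1, ?_⟩
    rw [h2]
    show (a * n + b) % a = b % a
    rw [Nat.mul_add_mod]
  · rintro ⟨h1, h2⟩
    refine ⟨h1, q / a, ?_⟩
    have h3 : q % a = b % a := h2
    rw [Nat.mod_eq_of_lt hb] at h3
    rw [← h3]
    exact (Nat.div_add_mod q a).symm

lemma red_eq (a : ℕ) (ha : 2 ≤ a) : red a = J4H72.LP.red a := by
  unfold red J4H72.LP.red
  ext b
  rw [mem_filter, mem_filter, mem_Ico, mem_range, Nat.coprime_comm]
  constructor
  · rintro ⟨h1, h2⟩
    exact ⟨h1.2, h2⟩
  · rintro ⟨h1, h2⟩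
    refine ⟨⟨?_, h1⟩, h2⟩
    rcases Nat.eq_zero_or_pos b with h | h
    · subst h
      rw [Nat.coprime_zero_left] at h2
      omega
    · exact h

open Classical in
/-- **The moments of the least primes modulo almost all moduli.** -/
theorem result (δ ε : ℝ) (hδ : 0 < δ) (hε : 0 < ε) (U : ℕ) : ∃ N₀ : ℕ, ∀ N : ℕ, N₀ ≤ N →
    (((Icc 1 N).filter (fun a : ℕ => ¬ Good δ ε a)).card : ℝ) ≤ N / Real.log N ^ U := by
  obtain ⟨N₀, h⟩ := J4H72.LP.moments δ ε hδ hε U
  refine ⟨max N₀ 3, fun N hN => ?_⟩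
  obtain ⟨S, hS1, hS2, hS3⟩ := h N ((le_max_left _ _).trans hN)
  have hN3 : 3 ≤ N := (le_max_right _ _).trans hN
  have hlog : 0 < Real.log N := Real.log_pos (by exact_mod_cast (by omega : 1 < N))
  rw [le_div_iff₀ (by positivity)]
  refine le_trans ?_ hS2
  apply mul_le_mul_of_nonneg_right _ (by positivity)
  have hsub : (Icc 1 N).filter (fun a : ℕ => ¬ Good δ ε a) ⊆ S := by
    intro a ha
    rw [mem_filter] at ha
    by_contra haS
    apply ha.2
    obtain ⟨ha3, hm⟩ := hS3 a ha.1 haS
    intro κ hκ hκδ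
    obtain ⟨g1, g2⟩ := hm κ hκ hκδ
    have hφ : (0 : ℝ) < Nat.totient a := by exact_mod_cast Nat.totient_pos.2 (by omega)
    have hL : 0 < Real.log a := Real.log_pos (by exact_mod_cast (by omega : 1 < a))
    have hs : 0 < (Nat.totient a : ℝ) * Real.log a := by positivity
    have hmom : moment κ a = (∑ b ∈ J4H72.LP.red a, (J4H72.LP.lp a b : ℝ) ^ κ) /
        (Nat.totient a * (Nat.totient a * Real.log a) ^ κ) := by
      unfold moment
      rw [red_eq a (by omega)]
      have e1 : ∀ b ∈ J4H72.LP.red a, ((p a b : ℝ) / (Nat.totient a * Real.log a)) ^ κ =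
          (J4H72.LP.lp a b : ℝ) ^ κ / (Nat.totient a * Real.log a) ^ κ := by
        intro b hb
        unfold J4H72.LP.red at hb
        rw [mem_filter, mem_range] at hb
        rw [p_eq a b hb.1, Real.div_rpow (Nat.cast_nonneg _) hs.le]
      rw [sum_congr rfl e1, ← sum_div, div_div, mul_comm ((Nat.totient a : ℝ))
        (((Nat.totient a : ℝ) * Real.log a) ^ κ)]
    have hX : 0 < (Nat.totient a : ℝ) * (Nat.totient a * Real.log a) ^ κ := by positivity
    rw [hmom, le_div_iff₀ hX, div_le_iff₀ hX]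
    refine ⟨g1, g2.trans (le_of_eq ?_)⟩
    ring
  exact_mod_cast card_le_card hsub

end Pool.Agent.Results.MP_5b0a7e_nt.MomentsLeastPrime
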